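import Pool.Agent.Helper86.Poly.Goals

set_option autoImplicit false

namespace Pool.Agent.Helper35.Poly

open Pool.Agent.Helper86.Poly MeasureTheory Set

namespace PkMAX

/-- the tuples with base point at the origin and diameter at most one -/
def A (d n : ℕ) (i₀ : Fin n) : Set (Fin n → E d) :=
  {p | p i₀ = 0 ∧ ∀ i j, dist (p i) (p j) ≤ 1}

lemma isCompact_A (d n : ℕ) (i₀ : Fin n) : IsCompact (A d n i₀) := by
  refine Metric.isCompact_of_isClosed_isBounded ?_ ?_
  · have : A d n i₀ = {p : Fin n → E d | p i₀ = 0} ∩ ⋂ i, ⋂ j, {p : Fin n → E d | dist (p i) (p j) ≤ 1} := by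
      ext p
      simp [A]
    rw [this]
    refine IsClosed.inter ?_ ?_
    · exact isClosed_eq (continuous_apply i₀) continuous_const
    · exact isClosed_iInter fun i => isClosed_iInter fun j =>
        isClosed_le ((continuous_apply i).dist (continuous_apply j)) continuous_const
  · refine (Metric.isBounded_iff_subset_closedBall (0 : Fin n → E d)).mpr ⟨1, ?_⟩
    intro p hp
    rw [Metric.mem_closedBall, dist_pi_le_iff zero_le_one]
    intro i
    have h1 := hp.2 i i₀
    rw [hp.1] at h1
    simpa using h1

lemma usc (d n : ℕ) : UpperSemicontinuous fun p : Fin n → E d => volume (convexHull ℝ (range p)) := by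
  intro p y hy
  have hK : IsCompact (convexHull ℝ (range p)) := (finite_range p).isCompact_convexHull (𝕜 := ℝ)
  have h1 := tendsto_measure_cthickening_of_isCompact (μ := (volume : Measure (E d))) hK
  have h2 : ∀ᶠ r in nhds (0 : ℝ), volume (Metric.cthickening r (convexHull ℝ (range p))) < y :=
    h1.eventually (gt_mem_nhds hy)
  obtain ⟨ε, hε, hball⟩ := Metric.eventually_nhds_iff.mp h2
  have h3 : volume (Metric.cthickening (ε / 2) (convexHull ℝ (range p))) < y := by
    apply hball
    rw [Real.dist_eq, sub_zero, abs_of_pos (by positivity)]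
    linarith
  refine Metric.eventually_nhds_iff.mpr ⟨ε / 2, by positivity, ?_⟩
  intro q hq
  refine lt_of_le_of_lt (measure_mono ?_) h3
  refine convexHull_min ?_ ((convex_convexHull ℝ _).cthickening _)
  rintro _ ⟨i, rfl⟩
  refine Metric.mem_cthickening_of_dist_le (q i) (p i) _ _ (subset_convexHull ℝ _ (mem_range_self i)) ?_
  exact (dist_le_pi_dist q p i).trans hq.le

lemma volume_translate {d n : ℕ} (q : Fin n → E d) (c : E d) :
    volume (convexHull ℝ (range fun i => q i - c)) = volume (convexHull ℝ (range q)) := by
  have h1 : (range fun i => q i - c) = (fun x => x + -c) '' range q := by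
    rw [← range_comp]
    simp only [sub_eq_add_neg, Function.comp_def]
  have h2 : convexHull ℝ ((fun x => x + -c) '' range q) = (fun x => x + -c) '' convexHull ℝ (range q) := by
    have := (AffineMap.image_convexHull
      (f := (AffineMap.id ℝ (E d)) + AffineMap.const ℝ (E d) (-c)) (s := range q))
    simpa [Function.comp_def] using this.symm
  rw [h1, h2, image_add_right, neg_neg]
  exact measure_preimage_add_right _ _ _

theorem thm : G_MAX := by
  intro d n hn
  let i₀ : Fin n := ⟨0, hn⟩
  have hne : (A d n i₀).Nonempty := ⟨fun _ => 0, rfl, fun i j => by simp⟩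
  obtain ⟨p, hp, hmax⟩ := (usc d n).upperSemicontinuousOn (A d n i₀) |>.exists_isMaxOn hne (isCompact_A d n i₀)
  refine ⟨p, hp.2, fun q hq => ?_⟩
  rw [← volume_translate q (q i₀)]
  refine hmax ⟨?_, ?_⟩
  · simp
  · intro i j
    rw [dist_sub_right]
    exact hq i j

end PkMAX

end Pool.Agent.Helper35.Poly
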